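import Mathlib

/-! # Counting linear maps with a given value (for P1 of helper23, helper81) -/

set_option autoImplicit false

namespace Pool.Agent.Zk63.AK

theorem fiber_card {G H : Type*} [AddGroup G] [AddGroup H] [Finite G] [Finite H] (f : G →+ H)
    (hf : Function.Surjective f) (w : H) :
    Nat.card {x : G // f x = w} * Nat.card H = Nat.card G := by
  obtain ⟨x0, hx0⟩ := hf w
  have e : {x : G // f x = w} ≃ f.ker :=
    { toFun := fun x => ⟨x.1 - x0, by rw [AddMonoidHom.mem_ker, map_sub, x.2, hx0, sub_self]⟩
      invFun := fun y => ⟨y.1 + x0, by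
        rw [map_add, (AddMonoidHom.mem_ker).1 y.2, hx0, zero_add]⟩
      left_inv := fun x => by simp
      right_inv := fun y => by simp }
  rw [Nat.card_congr e, AddSubgroup.card_eq_card_quotient_mul_card_addSubgroup f.ker,
    Nat.card_congr (QuotientAddGroup.quotientKerEquivOfSurjective f hf).toEquiv, mul_comm]

section

variable {K V W : Type*} [Field K] [AddCommGroup V] [Module K V] [AddCommGroup W] [Module K W]

/-- there is a linear map with a given value at a nonzero vector -/
theorem exists_map {u : V} (hu : u ≠ 0) (w : W) : ∃ T : V →ₗ[K] W, T u = w := by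
  have h : u ∉ (⊥ : Submodule K V) := by simpa using hu
  obtain ⟨g, -, hg⟩ := LinearMap.exists_extend_of_notMem (K := K) (0 : (⊥ : Submodule K V) →ₗ[K] W)
    h w
  exact ⟨g, hg⟩

variable [Finite V] [Finite W]

/-- the number of linear maps with a given value at a nonzero vector -/
theorem card_eval {u : V} (hu : u ≠ 0) (w : W) :
    Nat.card {T : V →ₗ[K] W // T u = w} * Nat.card W = Nat.card (V →ₗ[K] W) := by
  have : Finite (V →ₗ[K] W) := DFunLike.finite _
  exact fiber_card (LinearMap.applyₗ u : (V →ₗ[K] W) →ₗ[K] W).toAddMonoidHom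
    (fun w => exists_map hu w) w

/-- the number of linear maps to a product with a given first component of the value -/
theorem card_eval_fst {W' : Type*} [AddCommGroup W'] [Module K W'] [Finite W'] {u : V}
    (hu : u ≠ 0) (w : W) :
    Nat.card {T : V →ₗ[K] W × W' // (T u).1 = w} * Nat.card W = Nat.card (V →ₗ[K] W × W') := by
  have : Finite (V →ₗ[K] W × W') := DFunLike.finite _
  refine fiber_card (((LinearMap.fst K W W').comp
    (LinearMap.applyₗ u : (V →ₗ[K] W × W') →ₗ[K] W × W')).toAddMonoidHom) (fun w => ?_) w
  obtain ⟨T, hT⟩ := exists_map (K := K) hu ((w, 0) : W × W')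
  refine ⟨T, ?_⟩
  change (T u).1 = w
  rw [hT]

end

end Pool.Agent.Zk63.AK
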